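import Pool.Agent.H54.BC.Main2
import Pool.Graph.R_pool_sql_team_seeded_3997aac3.Q116.BK.Final

/-!
Pieces whose roots are leaves, under the hypothesis `PairHyp` on pairs of ends.
-/

set_option autoImplicit false

namespace Pool.Agent.H54.BK

open Finset
open scoped Classical
open Pool.Agent.H13BC (nbi nbo eT MC Cp)
open Q116.BK

theorem base3 {V : Type} [Fintype V] {T : SimpleGraph V} (hT : T.IsAcyclic) {R : Set V}
    (hR : ∀ u ∈ R, ∀ v ∈ R, ¬ T.Adj u v) (q : V → ℕ) (k : ℝ) (hk : 1 < k) {t : ℕ}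
    (A : Set V) (hA : Cn T A) (hne : ∃ u ∈ A, u ∉ R)
    (hleaf : ∀ r ∈ A, r ∈ R → ∀ w ∈ A, ∀ w' ∈ A, T.Adj r w → T.Adj r w' → w = w')
    (hpos : ∀ v, v ∉ R → 1 ≤ rn T R v + q v)
    (n1 : ∀ C : Finset {x // x ∈ A \ R}, C.Nonempty → Pool.Agent.H13BC.Cn (T.induce (A \ R)) C →
      ((C.card : ℝ) - 1) + ∑ v ∈ C, ((rn T R v.1 + q v.1 : ℕ) : ℝ) ≤ k * C.card)
    (n2 : Pool.Agent.H54.BC.PairHyp (T.induce (A \ R)) (fun v => rn T R v.1 + q v.1) k)
    (r : V) (hr : r ∈ A) (hrR : r ∈ R) : Ori T R A r (2 - 1 / k) t := by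
  have htree := nonroots_tree hT hR hA hne hleaf
  obtain ⟨u0, hu0, hu0R⟩ := hne
  have hur : u0 ≠ r := fun h => hu0R (h ▸ hrR)
  obtain ⟨w, hw, hrw⟩ := nb hA hu0 hr hur r hr
  have hwR : w ∉ R := fun h => hR r hrR w h hrw
  let α : Type := {x // x ∈ A \ R}
  let Rt : α → Type := fun v => {u : V // u ∈ R ∧ T.Adj v.1 u} ⊕ Fin (q v.1)
  have hcard : ∀ v : α, Fintype.card (Rt v) = rn T R v.1 + q v.1 := by
    intro v
    show Fintype.card ({u : V // u ∈ R ∧ T.Adj v.1 u} ⊕ Fin (q v.1)) = _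
    rw [Fintype.card_sum, Fintype.card_fin]
    congr 1
    unfold rn
    rw [← Nat.card_eq_fintype_card]
    exact Nat.card_coe_set_eq _
  have hne : ∀ v : α, Nonempty (Rt v) := by
    intro v
    apply Fintype.card_pos_iff.1
    rw [hcard v]
    exact hpos v.1 v.2.2
  have hMC : ∀ K : ℕ, 0 < K → MC α Rt (T.induce (A \ R)) t ⟨w, hw, hwR⟩ K k := by
    intro K hK
    refine Pool.Agent.H54.BC.mainx2 α Rt (T.induce (A \ R)) t ⟨w, hw, hwR⟩ K k htree hK ?_ ?_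
    · intro C hC hCn
      simp only [hcard]
      exact n1 C hC hCn
    · simp only [hcard]
      exact n2
  obtain ⟨C, hC, h⟩ := upo α Rt (T.induce (A \ R)) t ⟨w, hw, hwR⟩ k hk hMC
  refine ⟨C, hC, ?_⟩
  intro W _ G X hX hsize
  obtain ⟨x, b, c1, c2, c3⟩ := h W G (fun y => ¬ X y) (sides_not hX)
    (by rw [ed_not hX (fun _ => Iff.rfl)]; exact hsize)
  have hJ : ∀ v, ∃ z : α, v ∈ A → v ∈ R → T.Adj z.1 v := by
    intro v
    by_cases hv : v ∈ A ∧ v ∈ R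
    · obtain ⟨z, hz, hvz⟩ := nb hA hu0 hr hur v hv.1
      exact ⟨⟨z, hz, fun h => hR v hv.2 z h hvz⟩, fun _ _ => hvz.symm⟩
    · exact ⟨⟨w, hw, hwR⟩, fun h h' => absurd ⟨h, h'⟩ hv⟩
  choose J hJ using hJ
  have hJe : ∀ v ∈ A, v ∈ R → ∀ z : α, T.Adj z.1 v → z = J v := by
    intro v hv hvR z hvz
    exact Subtype.ext (hleaf v hv hvR z.1 z.2.1 _ (J v).2.1 hvz.symm (hJ v hv hvR).symm)
  let f : Fin t → V → W := fun i v =>
    if h : v ∈ A \ R then x i ⟨v, h⟩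
    else if h : v ∈ A ∧ v ∈ R then b (J v) (Sum.inl ⟨v, h.2, hJ v h.1 h.2⟩)
    else x i ⟨w, hw, hwR⟩
  have hfN : ∀ i v (hv : v ∈ A) (hvR : v ∉ R), f i v = x i ⟨v, hv, hvR⟩ :=
    fun i v hv hvR => dif_pos ⟨hv, hvR⟩
  have hfR : ∀ i v (hv : v ∈ A) (hvR : v ∈ R),
      f i v = b (J v) (Sum.inl ⟨v, hvR, hJ v hv hvR⟩) := by
    intro i v hv hvR
    show (if h : v ∈ A \ R then x i ⟨v, h⟩
      else if h : v ∈ A ∧ v ∈ R then b (J v) (Sum.inl ⟨v, h.2, hJ v h.1 h.2⟩)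
      else x i ⟨w, hw, hwR⟩) = _
    rw [dif_neg (fun h => h.2 hvR), dif_pos ⟨hv, hvR⟩]
  have side : ∀ i, ∀ u ∈ A, ∀ v ∈ A, v ∈ R → T.Adj u v → G.Adj (f i u) (f i v) := by
    intro i u hu v hv hvR huv
    have huR : u ∉ R := fun h => hR u h v hvR huv
    rw [hfR i v hv hvR, hfN i u hu huR]
    have h4 : (⟨u, hu, huR⟩ : α) = J v := hJe v hv hvR ⟨u, hu, huR⟩ huv
    rw [h4]
    exact (c1 i).rt _ _
  refine ⟨f, ⟨?_, ?_, ?_⟩, ?_⟩
  · intro i u hu v hv huv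
    by_cases huR : u ∈ R
    · exact (side i v hv u hu huR huv.symm).symm
    by_cases hvR : v ∈ R
    · exact side i u hu v hv hvR huv
    rw [hfN i u hu huR, hfN i v hv hvR]
    exact (c1 i).adj ⟨u, hu, huR⟩ ⟨v, hv, hvR⟩ huv
  · intro i i' u hu v hv h
    by_cases huR : u ∈ R
    · by_cases hvR : v ∈ R
      · rw [hfR i u hu huR, hfR i' v hv hvR] at h
        have h1 := (c1 i).inj (a₁ := Sum.inr ⟨J u, Sum.inl ⟨u, huR, hJ u hu huR⟩⟩)
          (a₂ := Sum.inr ⟨J v, Sum.inl ⟨v, hvR, hJ v hv hvR⟩⟩) h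
        have h2 := Sum.inr_injective h1
        have h3 : u = v := by
          have h5 := congrArg (fun s : Σ v : α, Rt v =>
            (Sum.elim (fun z : {u : V // u ∈ R ∧ T.Adj s.1.1 u} => z.1) (fun _ => s.1.1) s.2 : V))
            h2
          exact h5
        exact ⟨h3, Or.inr huR⟩
      · rw [hfR i u hu huR, hfN i' v hv hvR] at h
        have h1 := (c1 i').inj (a₁ := Sum.inr ⟨J u, Sum.inl ⟨u, huR, hJ u hu huR⟩⟩)
          (a₂ := Sum.inl ⟨v, hv, hvR⟩) h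
        exact absurd h1 (by simp)
    · by_cases hvR : v ∈ R
      · rw [hfN i u hu huR, hfR i' v hv hvR] at h
        have h1 := (c1 i).inj (a₁ := Sum.inl ⟨u, hu, huR⟩)
          (a₂ := Sum.inr ⟨J v, Sum.inl ⟨v, hvR, hJ v hv hvR⟩⟩) h
        exact absurd h1 (by simp)
      · rw [hfN i u hu huR, hfN i' v hv hvR] at h
        by_cases hj : i = i'
        · rw [hj] at h
          have h1 := (c1 i').inj (a₁ := Sum.inl ⟨u, hu, huR⟩) (a₂ := Sum.inl ⟨v, hv, hvR⟩) h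
          have h2 := Sum.inl_injective h1
          exact ⟨congrArg Subtype.val h2, Or.inl hj⟩
        · exact absurd h (c2 _ _ _ _ hj)
  · intro i i' u hu huR
    rw [hfR i u hu huR, hfR i' u hu huR]
  · intro i
    have h1 := side i w hw r hr hrR hrw.symm
    rw [hfN i w hw hwR] at h1
    have h4 := hX _ _ h1
    have h5 := c3 i
    tauto

end Pool.Agent.H54.BK
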