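import Pool.Agent.H54.BC.Exact3

/-!
Critical non-roots.
-/

set_option autoImplicit false

namespace Pool.Agent.H54.BK

open Finset
open scoped Classical
open Pool.Agent.H13BC (nbi nbo eT MC Cp br)
open Q116.BK

/-- a non-root with exactly one root neighbour and degree more than the density -/
def Critical {V : Type} (T : SimpleGraph V) (R : Set V) (ρ : ℝ) (v : V) : Prop :=
  v ∉ R ∧ rn T R v = 1 ∧ ρ < ({u | u ∉ R ∧ T.Adj v u} : Set V).ncard + 1

/-- tight sets which can be left at v have v critical -/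
theorem crit_of_tight {V : Type} [Fintype V] {T : SimpleGraph V} {R : Set V}
    (hR : ∀ u ∈ R, ∀ v ∈ R, ¬ T.Adj u v)
    {ρ : ℝ} (htot : (eT T Rᶜ : ℝ) = ρ * ((Rᶜ : Set V).ncard : ℝ))
    (hbal : ∀ S : Set V, S.Nonempty → S ⊆ Rᶜ → ρ * (S.ncard : ℝ) ≤ (eT T S : ℝ))
    {C : Finset V} {v f : V} (ht : Tight T R ρ C v) (hf : f ∉ C) (hfR : f ∉ R)
    (hvf : T.Adj v f) : Critical T R ρ v := by
  obtain ⟨hv, hCR, hC, hs, hlt⟩ := ht
  refine ⟨hCR v hv, hs, ?_⟩
  have hCne : C.Nonempty := ⟨v, hv⟩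
  have hE := cnt_bal T R hR ρ htot hbal (C.erase v) (fun w hw => hCR w (mem_of_mem_erase hw))
  have h2 := Pool.Agent.Q222.BC.conn_sum hCne (cn_of_conn hC)
  have h3 : 1 ≤ C.card := card_pos.2 hCne
  have h4 : (2 : ℝ) * ((C.card : ℝ) - 1) ≤ ∑ v ∈ C, ((nbi T C v).card : ℝ) := by
    have : ((2 * (C.card - 1) : ℕ) : ℝ) ≤ ((∑ v ∈ C, (nbi T C v).card : ℕ) : ℝ) := by
      exact_mod_cast h2
    push_cast [Nat.cast_sub h3] at this
    exact this
  have h5 : ∑ u ∈ C, ((nbi T C u).card : ℝ) = 2 * ((nbi T C v).card : ℝ) +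
      ∑ u ∈ C.erase v, ((nbi T (C.erase v) u).card : ℝ) := by
    exact_mod_cast Pool.Agent.Q222.BC.sum_nbi_erase T hv
  have h6 : ∑ u ∈ C, (rn T R u : ℝ) = (rn T R v : ℝ) + ∑ u ∈ C.erase v, (rn T R u : ℝ) :=
    (add_sum_erase C _ hv).symm
  have h7 : ((C.erase v).card : ℝ) = (C.card : ℝ) - 1 := by
    rw [card_erase_of_mem hv, Nat.cast_sub h3, Nat.cast_one]
  have h8 : ∀ u : V, ((C.erase v).filter (fun w => T.Adj u w)).card =
      (nbi T (C.erase v) u).card := by
    intro u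
    congr 1
    ext w
    simp only [nbi, mem_filter, mem_univ, true_and]
    tauto
  simp only [h8] at hE
  have h9 : (nbi T C v).card + 1 ≤ ({u | u ∉ R ∧ T.Adj v u} : Set V).ncard := by
    have h10 : f ∉ nbi T C v := by
      simp only [nbi, mem_filter, mem_univ, true_and]
      exact fun h => hf h.2
    rw [← card_insert_of_notMem h10, ← Set.ncard_coe_finset]
    refine Set.ncard_le_ncard ?_ (Set.toFinite _)
    intro w hw
    rw [mem_coe, mem_insert] at hw
    rcases hw with rfl | hw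
    · exact ⟨hfR, hvf⟩
    · simp only [nbi, mem_filter, mem_univ, true_and] at hw
      exact ⟨hCR w hw.2, hw.1⟩
  have h11 : ((nbi T C v).card : ℝ) + 1 ≤ (({u | u ∉ R ∧ T.Adj v u} : Set V).ncard : ℝ) := by
    exact_mod_cast h9
  rw [h7] at hE
  rw [hs, Nat.cast_one] at h6
  linarith

theorem facing_of_crit {V : Type} [Fintype V] {T : SimpleGraph V} {R : Set V}
    (hR : ∀ u ∈ R, ∀ v ∈ R, ¬ T.Adj u v)
    {ρ : ℝ} (htot : (eT T Rᶜ : ℝ) = ρ * ((Rᶜ : Set V).ncard : ℝ))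
    (hbal : ∀ S : Set V, S.Nonempty → S ⊆ Rᶜ → ρ * (S.ncard : ℝ) ≤ (eT T S : ℝ))
    (hcrit : ∀ (C1 C2 : Finset V) (v1 v2 : V), Tight T R ρ C1 v1 → Tight T R ρ C2 v2 →
      Critical T R ρ v1 → Critical T R ρ v2 → ∀ p : T.Walk v1 v2, p.IsPath →
      (∀ x ∈ p.support, x ∉ R) → (∀ x ∈ p.support, x ∈ C1 → x = v1) →
      (∀ x ∈ p.support, x ∈ C2 → x = v2) → p.length ≤ 1) :
    Facing T R ρ := by
  have first : ∀ (C : Finset V) (v w : V) (p : T.Walk v w), Tight T R ρ C v →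
      (∀ x ∈ p.support, x ∉ R) → (∀ x ∈ p.support, x ∈ C → x = v) → 1 ≤ p.length →
      Critical T R ρ v := by
    intro C v w p ht hpR hpC hlen
    cases p with
    | nil => simp at hlen
    | @cons _ f _ h p =>
      have hf : f ∈ (SimpleGraph.Walk.cons h p).support := by
        rw [SimpleGraph.Walk.support_cons]
        exact List.mem_cons_of_mem _ (SimpleGraph.Walk.start_mem_support _)
      exact crit_of_tight hR htot hbal ht (fun hfC => h.ne (hpC f hf hfC).symm) (hpR f hf) h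
  intro C1 C2 v1 v2 t1 t2 p hp hpR h1 h2
  by_contra hcon
  push Not at hcon
  have c1 := first C1 v1 v2 p t1 hpR h1 (by omega)
  have c2 := first C2 v2 v1 p.reverse t2 (by
      intro x hx
      rw [SimpleGraph.Walk.support_reverse, List.mem_reverse] at hx
      exact hpR x hx) (by
      intro x hx hxC
      rw [SimpleGraph.Walk.support_reverse, List.mem_reverse] at hx
      exact h2 x hx hxC) (by rw [SimpleGraph.Walk.length_reverse]; omega)
  have := hcrit C1 C2 v1 v2 t1 t2 c1 c2 p hp hpR h1 h2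
  omega

end Pool.Agent.H54.BK
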