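import Pool.Graph.R_pool_sql_team_seeded_3997aac3.Q165.BC.M5
import Pool.Graph.R_pool_sql_team_seeded_3997aac3.H13BC.All4

/-!
# Two ends of a set of determined non-roots

If every branch outside `S` at `S` meets `S`, then `S` has two different end components.  This
weakens the numerical hypothesis of `Pool.Agent.H13BC.S_MAINX`.
-/

set_option autoImplicit false

open Classical Finset Filter

namespace Pool.Agent.H54.BC

open Pool.Agent.H13BC Pool.Agent.Q222.BC Pool.Agent.Q165.BC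

/-- an end of S behind a boundary edge -/
theorem end_behind {α : Type} [Fintype α] {T : SimpleGraph α} {S : Finset α} (hT : T.IsTree)
    (hyp : ∀ v ∈ S, ∀ f, f ∉ S → T.Adj v f → (br T v f ∩ S).Nonempty)
    {v f : α} (hv : v ∈ S) (hf : f ∉ S) (hvf : T.Adj v f) :
    ∃ v2 f2, v2 ∈ S ∧ f2 ∉ S ∧ T.Adj v2 f2 ∧ br T f2 v2 ⊆ S ∧ br T f2 v2 ⊆ br T v f := by
  let Bd : Finset (α × α) := univ.filter fun p => T.Adj p.1 p.2 ∧ (p.1 ∈ S ↔ p.2 ∉ S) ∧
    br T p.1 p.2 ⊆ br T v f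
  have hne : Bd.Nonempty := ⟨(v, f), by simp [Bd, hvf, hv, hf]⟩
  obtain ⟨⟨a, b⟩, hab, hmin⟩ := Finset.exists_min_image Bd (fun p => (br T p.1 p.2).card) hne
  simp only [Bd, Finset.mem_filter, Finset.mem_univ, true_and] at hab hmin
  obtain ⟨hadj, hst, hle⟩ := hab
  -- the side is monochromatic
  have hmono : ∀ x ∈ br T a b, (x ∈ S ↔ b ∈ S) := by
    by_contra hcon
    push Not at hcon
    obtain ⟨x, hx, hxS⟩ := hcon
    have hxS' : ¬ (x ∈ S ↔ b ∈ S) := by tauto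
    let C := (br T a b).filter fun x => (x ∈ S ↔ b ∈ S)
    obtain ⟨u, hu, w, hw, hwC, huw⟩ := cn_br hT hadj C (Finset.filter_subset _ _)
      ⟨b, Finset.mem_filter.2 ⟨f_mem_br hadj, Iff.rfl⟩⟩ (fun hh => by
        have : x ∈ C := by rw [hh]; exact hx
        exact hxS' (Finset.mem_filter.1 this).2)
    have hu' := Finset.mem_filter.1 hu
    have hw' : ¬ (w ∈ S ↔ b ∈ S) := fun h => hwC (Finset.mem_filter.2 ⟨hw, h⟩)
    have huwS : (u ∈ S ↔ w ∉ S) := by tauto
    by_cases ha : a ∈ br T u w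
    · have ha' : a ∉ br T w u := by
        rw [← br_compl hT huw]
        simpa using ha
      have hsub := Q150.BC.side_sub hT hadj huw.symm hu'.1 ha'
      have hlt : (br T w u).card < (br T a b).card := by
        apply Finset.card_lt_card
        refine ⟨hsub, fun h => ?_⟩
        exact v_nmem_br (h hw)
      have := hmin (w, u) ⟨huw.symm, by tauto, hsub.trans hle⟩
      simp only at this
      omega
    · have hsub := Q150.BC.side_sub hT hadj huw hw ha
      have hlt : (br T u w).card < (br T a b).card := by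
        apply Finset.card_lt_card
        refine ⟨hsub, fun h => ?_⟩
        exact v_nmem_br (h hu'.1)
      have := hmin (u, w) ⟨huw, huwS, hsub.trans hle⟩
      simp only at this
      omega
  by_cases hb : b ∈ S
  · exact ⟨b, a, hb, by tauto, hadj.symm, fun x hx => (hmono x hx).2 hb, hle⟩
  · exfalso
    have haS : a ∈ S := hst.2 hb
    obtain ⟨x, hx⟩ := hyp a haS b hb hadj
    rw [Finset.mem_inter] at hx
    exact hb ((hmono x hx.1).1 hx.2)

/-- two ends of S -/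
theorem two_ends {α : Type} [Fintype α] {T : SimpleGraph α} {S : Finset α} (hT : T.IsTree)
    (hS : S.Nonempty) (hSu : S ≠ univ)
    (hyp : ∀ v ∈ S, ∀ f, f ∉ S → T.Adj v f → (br T v f ∩ S).Nonempty) :
    ∃ v1 f1 v2 f2, v1 ∈ S ∧ f1 ∉ S ∧ T.Adj v1 f1 ∧ br T f1 v1 ⊆ S ∧
      v2 ∈ S ∧ f2 ∉ S ∧ T.Adj v2 f2 ∧ br T f2 v2 ⊆ S ∧ br T f2 v2 ⊆ br T v1 f1 := by
  obtain ⟨c, hc⟩ := hS
  obtain ⟨u, hu, v, -, hvS, huv⟩ := Q150.BC.cn_univ hT c S (Finset.subset_univ _) ⟨c, hc⟩ hSu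
  obtain ⟨v1, f1, h1, h2, h3, h4, -⟩ := end_behind hT hyp hu hvS huv
  obtain ⟨v2, f2, h5, h6, h7, h8, h9⟩ := end_behind hT hyp h1 h2 h3
  exact ⟨v1, f1, v2, f2, h1, h2, h3, h4, h5, h6, h7, h8, h9⟩

/-- the number tot of one side of an edge of the tree on B -/
theorem tot_side {α : Type} [Fintype α] {T : SimpleGraph α} {s : α → ℕ} {r : ℝ}
    {B : Finset α} (hT : T.IsTree) (hB : B.Nonempty) (hBc : Cn T B) (hs : ∀ v, 1 ≤ s v)
    {v f : {v // v ∈ B}} (hvf : T.Adj v.1 f.1)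
    (hn : ((((br (TB T B) f v).map ⟨Subtype.val, Subtype.val_injective⟩).card : ℝ) - 1) +
      ∑ u ∈ (br (TB T B) f v).map ⟨Subtype.val, Subtype.val_injective⟩, (s u : ℝ) +
      ((2 - s v.1 : ℕ) : ℝ) ≤
        r * ((br (TB T B) f v).map ⟨Subtype.val, Subtype.val_injective⟩).card) :
    (tot (TB T B) (fun u => s u.1) (br (TB T B) f v) : ℝ) ≤ r * (br (TB T B) f v).card := by
  obtain ⟨hTB, -, -, hmap⟩ := Q150.BC.tb α T B hT hB hBc
  have hadj : (TB T B).Adj f v := hvf.symm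
  set C' := br (TB T B) f v with hC'
  have hv : v ∈ C' := Q222.BC.f_mem_br hadj
  have hcard : 0 < C'.card := Finset.card_pos.2 ⟨v, hv⟩
  have hcross : ∀ x ∈ C', ∀ y, y ∉ C' → (TB T B).Adj x y → x = v ∧ y = f := by
    intro x hx y hy hxy
    exact Q222.BC.cross hTB hadj hxy (Q222.BC.mem_br.1 hx) (fun hh => hy (Q222.BC.mem_br.2 hh))
  have hcst : ∀ u ∈ C', (cst (TB T B) (fun u => s u.1) C' u : ℝ) ≤
      (s u.1 : ℝ) + if u = v then ((2 - s v.1 : ℕ) : ℝ) else 0 := by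
    intro u hu
    have h1 : nbo (TB T B) C' u ⊆ if u = v then {f} else ∅ := by
      intro g hg
      simp only [nbo, mem_filter, mem_univ, true_and] at hg
      have h2 := hcross u hu g hg.2 hg.1
      rw [if_pos h2.1, mem_singleton]
      exact h2.2
    have hsu := hs u.1
    unfold cst
    beta_reduce
    rw [if_neg (show ¬ s u.1 = 0 by omega)]
    by_cases huv : u = v
    · rw [if_pos huv] at h1
      have h2 := Finset.card_le_card h1
      rw [Finset.card_singleton] at h2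
      rw [if_pos huv]
      have h3 : max (s u.1) ((nbo (TB T B) C' u).card + 1) ≤ s u.1 + (2 - s v.1) := by
        apply max_le (by omega)
        rw [← huv]
        omega
      exact_mod_cast h3
    · rw [if_neg huv] at h1
      have h2 := Finset.card_le_card h1
      rw [Finset.card_empty] at h2
      rw [if_neg huv, add_zero]
      have h3 : max (s u.1) ((nbo (TB T B) C' u).card + 1) ≤ s u.1 := by
        apply max_le (by omega)
        omega
      exact_mod_cast h3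
  have h3 : ∑ u ∈ C', (cst (TB T B) (fun u => s u.1) C' u : ℝ) ≤
      ∑ u ∈ C', (s u.1 : ℝ) + ((2 - s v.1 : ℕ) : ℝ) := by
    refine (Finset.sum_le_sum hcst).trans ?_
    rw [Finset.sum_add_distrib, Finset.sum_ite_eq' C' v, if_pos hv]
  rw [Finset.card_map, Finset.sum_map] at hn
  simp only [Function.Embedding.coeFn_mk] at hn
  unfold tot
  rw [Nat.cast_add, Nat.cast_sub (by omega), Nat.cast_one, Nat.cast_sum]
  linarith

/-- the hypothesis on pairs of ends -/
def PairHyp {α : Type} [Fintype α] (T : SimpleGraph α) (s : α → ℕ) (r : ℝ) : Prop :=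
  ∀ C1 C2 : Finset α, Cn T C1 → Cn T C2 → ∀ v1 ∈ C1, ∀ v2 ∈ C2, ∀ f1 f2,
    f1 ∉ C1 → f2 ∉ C2 → T.Adj v1 f1 → T.Adj v2 f2 → C2 ⊆ br T v1 f1 → C1 ⊆ br T v2 f2 →
    Disjoint C1 C2 → (∀ x ∈ C1, ∀ y ∈ C2, ¬ T.Adj x y) →
    ((C1.card : ℝ) - 1) + ∑ v ∈ C1, (s v : ℝ) + ((2 - s v1 : ℕ) : ℝ) ≤ r * C1.card ∨
    ((C2.card : ℝ) - 1) + ∑ v ∈ C2, (s v : ℝ) + ((2 - s v2 : ℕ) : ℝ) ≤ r * C2.card

/-- a boundary edge of S whose branch is outside S -/
lemma edge_out {α : Type} [Fintype α] {s : α → ℕ} {T : SimpleGraph α} {B : Finset α} {r : ℝ}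
    {S : Finset {v // v ∈ B}}
    (hT : T.IsTree) (hB : B.Nonempty) (hBc : Cn T B) (hs : ∀ v, 1 ≤ s v)
    (hn2 : PairHyp T s r)
    (hSu : S ≠ univ) (hSn : S.Nonempty)
    (hcl : ∀ C : Finset {v // v ∈ B}, C.Nonempty → Cn (TB T B) C → C ⊆ S →
        (∀ u ∈ C, ∀ v ∈ S, (TB T B).Adj u v → v ∈ C) →
        r * C.card < (tot (TB T B) (fun v => s v.1) C : ℝ)) :
    ∃ v f : {v // v ∈ B}, v ∈ S ∧ T.Adj v.1 f.1 ∧
      ∀ u : {v // v ∈ B}, u.1 ∈ br T v.1 f.1 → u ∉ S := by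
  obtain ⟨hTB, hbr, -, hmap⟩ := Q150.BC.tb α T B hT hB hBc
  by_contra hcon
  push Not at hcon
  obtain ⟨v1, f1, v2, f2, a1, a2, a3, a4, b1, b2, b3, b4, b5⟩ := two_ends hTB hSn hSu (by
    intro v hv f hf hvf
    obtain ⟨u, hu, huS⟩ := hcon v f hv hvf
    exact ⟨u, (@Finset.mem_inter _ (fun a b => propDecidable (a = b)) _ _ _).2
      ⟨(hbr v f hvf u).2 hu, huS⟩⟩)
  have key : ∀ v f : {v // v ∈ B}, v ∈ S → f ∉ S → (TB T B).Adj v f → br (TB T B) f v ⊆ S →
      ¬ (((((br (TB T B) f v).map ⟨Subtype.val, Subtype.val_injective⟩).card : ℝ) - 1) +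
      ∑ u ∈ (br (TB T B) f v).map ⟨Subtype.val, Subtype.val_injective⟩, (s u : ℝ) +
      ((2 - s v.1 : ℕ) : ℝ) ≤
        r * ((br (TB T B) f v).map ⟨Subtype.val, Subtype.val_injective⟩).card) := by
    intro v f hv hf hvf hsub hle
    have hfv : (TB T B).Adj f v := hvf.symm
    have h1 := hcl (br (TB T B) f v) ⟨v, Q222.BC.f_mem_br hfv⟩ (Q222.BC.cn_br hTB hfv) hsub (by
      intro u hu w hw huw
      by_contra hwn
      have h2 := Q222.BC.cross hTB hfv huw (Q222.BC.mem_br.1 hu)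
        (fun hh => hwn (Q222.BC.mem_br.2 hh))
      exact hf (h2.2 ▸ hw))
    have h2 := tot_side hT hB hBc hs (show T.Adj v.1 f.1 from hvf) hle
    linarith
  -- the two ends are disjoint
  have hdis : ∀ x ∈ br (TB T B) f1 v1, x ∉ br (TB T B) f2 v2 := by
    intro x hx hx2
    exact (Q150.BC.not_br hTB a3).2 hx (b5 hx2)
  have hmem : ∀ {C : Finset {v // v ∈ B}} {x : α},
      x ∈ C.map ⟨Subtype.val, Subtype.val_injective⟩ ↔ ∃ y ∈ C, y.1 = x := by
    intro C x
    rw [Finset.mem_map]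
    rfl
  rcases hn2 _ _ (hmap _ (Q222.BC.cn_br hTB a3.symm)) (hmap _ (Q222.BC.cn_br hTB b3.symm))
      v1.1 (hmem.2 ⟨v1, Q222.BC.f_mem_br a3.symm, rfl⟩)
      v2.1 (hmem.2 ⟨v2, Q222.BC.f_mem_br b3.symm, rfl⟩) f1.1 f2.1
      (by
        intro h
        obtain ⟨y, hy, hyf⟩ := hmem.1 h
        rw [Subtype.ext hyf] at hy
        exact Q222.BC.v_nmem_br hy)
      (by
        intro h
        obtain ⟨y, hy, hyf⟩ := hmem.1 h
        rw [Subtype.ext hyf] at hy
        exact Q222.BC.v_nmem_br hy) a3 b3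
      (by
        intro x hx
        obtain ⟨y, hy, rfl⟩ := hmem.1 hx
        exact (hbr v1 f1 a3 y).1 (b5 hy))
      (by
        intro x hx
        obtain ⟨y, hy, rfl⟩ := hmem.1 hx
        have h1 : y ∈ br (TB T B) v2 f2 := (Q150.BC.not_br hTB b3.symm).1 (hdis y hy)
        exact (hbr v2 f2 b3 y).1 h1)
      (by
        rw [Finset.disjoint_left]
        intro x hx hx2
        obtain ⟨y, hy, hyx⟩ := hmem.1 hx
        obtain ⟨z, hz, hzx⟩ := hmem.1 hx2
        have : y = z := Subtype.ext (hyx.trans hzx.symm)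
        rw [← this] at hz
        exact hdis y hy hz)
      (by
        intro x hx y hy hxy
        obtain ⟨x', hx', rfl⟩ := hmem.1 hx
        obtain ⟨y', hy', rfl⟩ := hmem.1 hy
        have hxy' : (TB T B).Adj x' y' := hxy
        have h2 := Q222.BC.cross hTB a3.symm hxy' (Q222.BC.mem_br.1 hx')
          (fun hh => hdis y' (Q222.BC.mem_br.2 hh) hy')
        rw [h2.2] at hy'
        exact a2 (b4 hy')) with h | h
  · exact key v1 f1 a1 a2 a3 a4 h
  · exact key v2 f2 b1 b2 b3 b4 h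

end Pool.Agent.H54.BC
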