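import Pool.Agent.H54.BC.Base3

/-!
The Bukh-Conlon bound for balanced trees without two facing tight sets.
-/

set_option autoImplicit false

namespace Pool.Agent.H54.BK

open Finset
open scoped Classical
open Pool.Agent.H13BC (nbi nbo eT MC Cp br)
open Q116.BK

/-- connected sets in the sense of `Pool.Agent.H13BC.Cn` induce connected graphs -/
theorem conn_of_cn {α : Type} [Fintype α] {T : SimpleGraph α} {C : Finset α} (hne : C.Nonempty)
    (h : Pool.Agent.H13BC.Cn T C) : (T.induce (C : Set α)).Connected := by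
  obtain ⟨c, hc⟩ := hne
  have hc' : c ∈ (C : Set α) := hc
  rw [SimpleGraph.connected_iff_exists_forall_reachable]
  refine ⟨⟨c, hc'⟩, ?_⟩
  let K : Finset α := C.filter (fun x => ∃ hx : x ∈ (C : Set α),
    (T.induce (C : Set α)).Reachable ⟨c, hc'⟩ ⟨x, hx⟩)
  have hK : K = C := by
    by_contra hne
    obtain ⟨u, hu, v, hv, hvK, huv⟩ := h K (Finset.filter_subset _ _)
      ⟨c, Finset.mem_filter.2 ⟨hc, hc', SimpleGraph.Reachable.refl _⟩⟩ hne
    obtain ⟨huC, hx, hr⟩ := Finset.mem_filter.1 hu
    apply hvK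
    refine Finset.mem_filter.2 ⟨hv, hv, hr.trans ?_⟩
    exact SimpleGraph.Adj.reachable (show (T.induce (C : Set α)).Adj ⟨u, hx⟩ ⟨v, hv⟩ from huv)
  rintro ⟨x, hx⟩
  have : x ∈ K := by rw [hK]; exact hx
  exact (Finset.mem_filter.1 this).2.2

/-- sets which induce connected graphs are connected in the sense of `Pool.Agent.H13BC.Cn` -/
theorem cn_of_conn {α : Type} {T : SimpleGraph α} {C : Finset α}
    (h : (T.induce (C : Set α)).Connected) : Pool.Agent.H13BC.Cn T C := by
  intro K hK hKne hKC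
  by_contra hcon
  push Not at hcon
  obtain ⟨k, hk⟩ := hKne
  have hkC : k ∈ (C : Set α) := hK hk
  have h1 : ∀ x y : (C : Set α), (T.induce (C : Set α)).Reachable x y → x.1 ∈ K → y.1 ∈ K := by
    intro x y hxy hx
    rw [SimpleGraph.reachable_iff_reflTransGen] at hxy
    induction hxy with
    | refl => exact hx
    | tail _ hab ih =>
      rename_i b c _
      by_contra hc
      exact hcon b.1 ih c.1 c.2 hc hab
  apply hKC
  apply Finset.Subset.antisymm hK
  intro y hy
  exact h1 ⟨k, hkC⟩ ⟨y, hy⟩ (h.preconnected _ _) hk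

/-- a walk into a branch uses the edge of the branch -/
theorem walk_br {α : Type} [Fintype α] {T : SimpleGraph α} (hT : T.IsTree) {v f : α}
    (hvf : T.Adj v f) {x y : α} (p : T.Walk x y) (hx : x ∉ br T v f) (hy : y ∈ br T v f) :
    v ∈ p.support := by
  induction p with
  | nil => exact absurd hy hx
  | cons h p ih =>
    rename_i a b c
    by_cases hb : b ∈ br T v f
    · have := Pool.Agent.Q222.BC.cross hT hvf h.symm (Pool.Agent.Q222.BC.mem_br.1 hb)
        (fun hh => hx (Pool.Agent.Q222.BC.mem_br.2 hh))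
      obtain ⟨-, rfl⟩ := this
      exact SimpleGraph.Walk.start_mem_support _
    · simp only [SimpleGraph.Walk.support_cons, List.mem_cons]
      exact Or.inr (ih hb hy)

/-- the path which leaves a connected set for a branch leaves it at once -/
theorem path_out {α : Type} [Fintype α] {T : SimpleGraph α} (hT : T.IsTree) {C : Finset α}
    (hC : Pool.Agent.H13BC.Cn T C) {v f : α} (hv : v ∈ C) (hf : f ∉ C) (hvf : T.Adj v f) {y : α}
    (hy : y ∈ br T v f) (p : T.Walk v y) (hp : p.IsPath) {x : α} (hx : x ∈ p.support)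
    (hxC : x ∈ C) : x = v := by
  by_contra hne
  have hxb : x ∉ br T v f := fun h =>
    Finset.disjoint_left.1 (Pool.Agent.Q222.BC.br_disj hT hC hv hf hvf) h hxC
  have h1 := walk_br hT hvf (p.dropUntil x hx) hxb hy
  have h2 := hp.support_nodup
  rw [← SimpleGraph.Walk.take_spec p hx, SimpleGraph.Walk.support_append,
    List.nodup_append] at h2
  obtain ⟨-, -, h3⟩ := h2
  have h4 : v ∈ (p.dropUntil x hx).support.tail := by
    rw [← SimpleGraph.Walk.cons_tail_support] at h1
    rcases List.mem_cons.1 h1 with h5 | h5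
    · exact absurd h5.symm hne
    · exact h5
  exact h3 v (SimpleGraph.Walk.start_mem_support _) v h4 rfl

/-- walks of induced subgraphs -/
theorem lift_walk {V : Type} {T : SimpleGraph V} {S : Set V} {a b : S}
    (p : (T.induce S).Walk a b) : ∃ q : T.Walk a.1 b.1, q.support = p.support.map Subtype.val ∧
      q.length = p.length ∧ (p.IsPath → q.IsPath) := by
  have h : ∃ q : T.Walk a.1 b.1, q.support = p.support.map Subtype.val ∧
      q.length = p.length := by
    induction p with
    | nil => exact ⟨SimpleGraph.Walk.nil, by simp⟩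
    | @cons x y z h p ih =>
      obtain ⟨q, h1, h2⟩ := ih
      have h' : T.Adj x.1 y.1 := h
      refine ⟨SimpleGraph.Walk.cons h' q, ?_, ?_⟩
      · rw [SimpleGraph.Walk.support_cons, SimpleGraph.Walk.support_cons, List.map_cons, h1]
      · rw [SimpleGraph.Walk.length_cons, SimpleGraph.Walk.length_cons, h2]
  obtain ⟨q, h1, h2⟩ := h
  refine ⟨q, h1, h2, fun hp => ?_⟩
  rw [SimpleGraph.Walk.isPath_def, h1]
  exact (List.nodup_map_iff Subtype.val_injective).2 hp.support_nodup

/-- `C` is a set of non-roots which induces a connected graph, `v ∈ C` has exactly one root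
neighbour, and the number `|C| - 1 + ∑ u ∈ C, r(u)` of the edges of `T` with both ends in `C ∪ R`
is more than `ρ |C| - 1` -/
def Tight {V : Type} (T : SimpleGraph V) (R : Set V) (ρ : ℝ) (C : Finset V) (v : V) : Prop :=
  v ∈ C ∧ (∀ u ∈ C, u ∉ R) ∧ (T.induce (C : Set V)).Connected ∧ rn T R v = 1 ∧
    ρ * C.card < (C.card : ℝ) + ∑ u ∈ C, (rn T R u : ℝ)

/-- two tight sets facing each other are adjacent or meet -/
def Facing {V : Type} (T : SimpleGraph V) (R : Set V) (ρ : ℝ) : Prop :=
  ∀ (C1 C2 : Finset V) (v1 v2 : V), Tight T R ρ C1 v1 → Tight T R ρ C2 v2 →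
    ∀ p : T.Walk v1 v2, p.IsPath → (∀ x ∈ p.support, x ∉ R) →
    (∀ x ∈ p.support, x ∈ C1 → x = v1) → (∀ x ∈ p.support, x ∈ C2 → x = v2) → p.length ≤ 1

/-- balanced trees with roots at every non-root and no two tight sets facing each other at a
distance -/
theorem exact3 {V : Type} [Fintype V] {T : SimpleGraph V} (hT : T.IsTree) {R : Set V}
    (hRne : R.Nonempty) (hRc : (Rᶜ : Set V).Nonempty) (hR : ∀ u ∈ R, ∀ v ∈ R, ¬ T.Adj u v)
    {ρ : ℝ} (hρ : 1 < ρ) (htot : (eT T Rᶜ : ℝ) = ρ * ((Rᶜ : Set V).ncard : ℝ))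
    (hbal : ∀ S : Set V, S.Nonempty → S ⊆ Rᶜ → ρ * (S.ncard : ℝ) ≤ (eT T S : ℝ))
    (hpos : ∀ v, v ∉ R → 1 ≤ rn T R v) (hface : Facing T R ρ)
    {t : ℕ} (ht : 0 < t) : ∃ r, Ori T R Set.univ r (2 - 1 / ρ) t := by
  obtain ⟨col, hcol⟩ := exists_col hT.isAcyclic
  obtain ⟨r, hr⟩ := hRne
  obtain ⟨u, hu⟩ := hRc
  have hγ : 1 ≤ (2 : ℝ) - 1 / ρ := by
    have h1 : 1 / ρ ≤ 1 := by
      rw [div_le_one (by linarith)]
      exact hρ.le
    linarith
  refine ⟨r, main hT.isAcyclic hR hγ ht col hcol ?_
    _ Set.univ le_rfl (cn_univ hT.connected) ⟨u, Set.mem_univ _, hu⟩ r (Set.mem_univ _) hr⟩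
  intro A hA hne hleaf r hr hrR
  have htree := nonroots_tree hT.isAcyclic hR hA hne hleaf
  have hH := cnt_part T R hR ρ htot hbal A
  have hn1 := conn_le (T := T.induce (A \ R)) (fun v => rn T R v.1) ρ hH
  refine base3 hT.isAcyclic hR (fun _ => 0) _ hρ A hA hne hleaf ?_ ?_ ?_ r hr hrR
  · intro v hv
    have := hpos v hv
    omega
  · intro C hC hCn
    exact hn1 C hC hCn
  · -- the hypothesis on pairs of ends
    intro C1 C2 hC1 hC2 v1 hv1 v2 hv2 f1 f2 hf1 hf2 hvf1 hvf2 hb1 hb2 hdis hnadj
    by_contra hcon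
    push Not at hcon
    obtain ⟨k1, k2⟩ := hcon
    simp only [add_zero] at k1 k2
    have tight : ∀ (C : Finset {x // x ∈ A \ R}) (v : {x // x ∈ A \ R}),
        Pool.Agent.H13BC.Cn (T.induce (A \ R)) C → v ∈ C →
        ρ * C.card < ((C.card : ℝ) - 1) + ∑ u ∈ C, (rn T R u.1 : ℝ) +
          ((2 - rn T R v.1 : ℕ) : ℝ) →
        Tight T R ρ (C.map (Function.Embedding.subtype _)) v.1 := by
      intro C v hC hv hlt
      have h1 := hn1 C ⟨v, hv⟩ hC
      have h2 := hpos v.1 v.2.2
      have h3 : rn T R v.1 = 1 := by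
        by_contra h4
        have h5 : 2 - rn T R v.1 = 0 := by omega
        rw [h5, Nat.cast_zero, add_zero] at hlt
        linarith
      refine ⟨?_, ?_, ?_, h3, ?_⟩
      · rw [Finset.mem_map]
        exact ⟨v, hv, rfl⟩
      · intro u hu
        rw [Finset.mem_map] at hu
        obtain ⟨w, -, rfl⟩ := hu
        exact w.2.2
      · apply conn_of_cn ⟨v.1, by rw [Finset.mem_map]; exact ⟨v, hv, rfl⟩⟩
        intro K hK hKne hKC
        let K' : Finset {x // x ∈ A \ R} := C.filter (fun x => x.1 ∈ K)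
        obtain ⟨a, ha, b, hb, hbK, hab⟩ := hC K' (Finset.filter_subset _ _) (by
          obtain ⟨k, hk⟩ := hKne
          have h6 := hK hk
          rw [Finset.mem_map] at h6
          obtain ⟨w, hw, rfl⟩ := h6
          exact ⟨w, Finset.mem_filter.2 ⟨hw, hk⟩⟩) (fun hh => by
          apply hKC
          apply Finset.Subset.antisymm hK
          intro x hx
          rw [Finset.mem_map] at hx
          obtain ⟨w, hw, rfl⟩ := hx
          rw [← hh] at hw
          exact (Finset.mem_filter.1 hw).2)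
        refine ⟨a.1, (Finset.mem_filter.1 ha).2, b.1, ?_, ?_, hab⟩
        · rw [Finset.mem_map]
          exact ⟨b, hb, rfl⟩
        · intro hbk
          exact hbK (Finset.mem_filter.2 ⟨hb, hbk⟩)
      · rw [Finset.card_map, Finset.sum_map]
        simp only [Function.Embedding.subtype_apply]
        rw [h3] at hlt
        have h6 : ((2 - 1 : ℕ) : ℝ) = 1 := by norm_num
        rw [h6] at hlt
        linarith
    have t1 := tight C1 v1 hC1 hv1 k1
    have t2 := tight C2 v2 hC2 hv2 k2
    obtain ⟨p, hp⟩ := (htree.connected.preconnected v1 v2).exists_isPath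
    obtain ⟨q, hq1, hq2, hq3⟩ := lift_walk p
    have hlen := hface _ _ v1.1 v2.1 t1 t2 q (hq3 hp) (by
        intro x hx
        rw [hq1, List.mem_map] at hx
        obtain ⟨y, -, rfl⟩ := hx
        exact y.2.2) (by
        intro x hx hxC
        rw [hq1, List.mem_map] at hx
        obtain ⟨y, hy, rfl⟩ := hx
        rw [Finset.mem_map] at hxC
        obtain ⟨z, hz, hzy⟩ := hxC
        have hzy' : z = y := Subtype.ext hzy
        rw [hzy'] at hz
        rw [path_out htree hC1 hv1 hf1 hvf1 (hb1 hv2) p hp hy hz]) (by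
        intro x hx hxC
        rw [hq1, List.mem_map] at hx
        obtain ⟨y, hy, rfl⟩ := hx
        rw [Finset.mem_map] at hxC
        obtain ⟨z, hz, hzy⟩ := hxC
        have hzy' : z = y := Subtype.ext hzy
        rw [hzy'] at hz
        rw [path_out htree hC2 hv2 hf2 hvf2 (hb2 hv1) p.reverse hp.reverse (by
          rw [SimpleGraph.Walk.support_reverse, List.mem_reverse]
          exact hy) hz])
    rw [hq2] at hlen
    have hlt : p.length = 0 ∨ p.length = 1 := by omega
    rcases hlt with h | h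
    · have h1 := SimpleGraph.Walk.eq_of_length_eq_zero h
      rw [h1] at hv1
      exact Finset.disjoint_left.1 hdis hv1 hv2
    · exact hnadj v1 hv1 v2 hv2 (SimpleGraph.Walk.adj_of_length_eq_one h)

end Pool.Agent.H54.BK
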