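import Pool.Agent.H54.BC.Ends

set_option autoImplicit false

open Classical Finset Filter

namespace Pool.Agent.H54.BC

open Pool.Agent.H13BC Pool.Agent.Q165.BC

/-- the main theorem under the weaker hypothesis -/
theorem mainx2 (α : Type) (ρ : α → Type) [Fintype α] [∀ v, Fintype (ρ v)]
    [∀ v, Nonempty (ρ v)] (T : SimpleGraph α) (t : ℕ) (v0 : α) (K : ℕ) (r : ℝ) (hT : T.IsTree)
    (hK : 0 < K)
    (hn1 : ∀ C : Finset α, C.Nonempty → Cn T C →
      ((C.card : ℝ) - 1) + ∑ v ∈ C, (Fintype.card (ρ v) : ℝ) ≤ r * C.card)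
    (hn2 : PairHyp T (fun v => Fintype.card (ρ v)) r) :
    MC α ρ T t v0 K r := by
  have hA := Pool.Agent.H13BC.parta_all
  have hN := Pool.Agent.Q165.BC.nest
  by_contra hcon
  have h1 : ∀ m : ℕ, ∃ (V : Type) (_ : Fintype V) (G : SimpleGraph V) (D : ℕ) (P : V → Prop),
      Nonempty V ∧ Ar G D K ∧ (∀ u v, G.Adj u v → (P u ↔ ¬ P v)) ∧ ((m : ℝ) + 1) ≤ (D : ℝ) ∧
      (∀ k τ : ℕ, 1 ≤ k → k ≤ Fintype.card α → (τ : ℝ) ≤ r * k →
        ((m : ℝ) + 1) * (Fintype.card V : ℝ) ^ τ ≤ (Fintype.card V : ℝ) ^ k * (D : ℝ) ^ τ) ∧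
      ¬ ∃ (x : Fin t → α → V) (w : ∀ v, ρ v → V), (∀ j, Cp T G (x j, w)) ∧
      (∀ j j' u v, j ≠ j' → x j u ≠ x j' v) ∧ ∀ j, P (x j v0) := by
    intro m
    by_contra hm
    refine hcon ⟨(m : ℝ) + 1, ?_⟩
    intro V iV G D P hne hAr hbi hD hgr
    by_contra hx
    exact hm ⟨V, iV, G, D, P, hne, hAr, hbi, hD, hgr, hx⟩
  choose V iV G D P hne hAr hbi hD hgr hbl using h1
  let U : Ultrafilter ℕ := hyperfilter ℕ
  have hU : ∀ k : ℕ, ∀ᶠ m in U, k ≤ m := by
    intro k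
    have h2 : (U : Filter ℕ) ≤ atTop := by
      rw [← Nat.cofinite_eq_atTop]
      exact hyperfilter_le_cofinite
    exact h2 (eventually_ge_atTop k)
  have hDpos : ∀ m, 0 < D m := by
    intro m
    have h2 := hD m
    have h3 : (0 : ℝ) < D m := by
      have : (0 : ℝ) ≤ m := Nat.cast_nonneg m
      linarith
    exact_mod_cast h3
  obtain ⟨col, hcoldef⟩ : ∃ col : α → Prop, col = fun v => Even (T.dist v0 v) := ⟨_, rfl⟩
  have hcol : ∀ u v, T.Adj u v → (col u ↔ ¬ col v) := by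
    rw [hcoldef]
    exact fun u v huv => col_alt hT v0 u v huv
  have hcol0 : col v0 := by
    rw [hcoldef]
    simp
  obtain ⟨hh, hhdef⟩ : ∃ hh : ℕ → ℕ, hh = hq (Fintype.card α)
    ((∑ u, Fintype.card (ρ u)) + t * Fintype.card α) := ⟨_, rfl⟩
  obtain ⟨H0, hG0, hst⟩ := stable (ρ := ρ) T G P D K col U hh (gd_self hAr hbi)
  have huniv : BB T ρ G H0 P D col U hh univ := by
    refine ⟨?_, cn_univ hT, ?_⟩
    · obtain ⟨c⟩ := hT.connected.nonempty
      exact ⟨c, mem_univ _⟩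
    · intro v _ f hf
      simp only [nbo, mem_filter, mem_univ, not_true_eq_false, and_false] at hf
  obtain ⟨B, hBm, hmin⟩ := Finset.exists_min_image
    (univ.filter (fun B : Finset α => BB T ρ G H0 P D col U hh B)) Finset.card
    ⟨univ, mem_filter.2 ⟨mem_univ _, huniv⟩⟩
  have hBB := (mem_filter.1 hBm).2
  obtain ⟨hB, hBc, hBf⟩ := id hBB
  obtain ⟨H, hGH, hHle, C, c1, θ, π, hC, hc1, hθ⟩ := hN α ρ T col K V G H0 P D U (hh B.card) B hK
    hDpos hG0 (fun H hH hle v hv f hf => (hst H hH hle B hBB).2.2 v hv f hf)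
  obtain ⟨M, β, hM, hβ⟩ := attseq hT hB hBc hC hc1 hDpos hθ
  obtain ⟨c, hc, hHst⟩ := hGH
  obtain ⟨S, b, μ, hSu, hb, hcx, hdet, hco, hat, hcl⟩ := stateB hA hT hB hBc hcol hK hc hM hU hD
    hHst hβ hgr (hn1 B hB hBc)
  have hHG : ∀ᶠ m in U, H m ≤ G m := by
    filter_upwards [hHst] with m hm
    exact hm.le
  rcases S.eq_empty_or_nonempty with hSe | hSn
  · -- everything is spread
    obtain ⟨ε0, hε0, hfin⟩ := finb Q261.BC.cmb Q91.BC.extp Q150.BC.tb α ρ T B col t (hh B.card)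
      hT hB hBc (by rw [hhdef]; exact hq_lo _ _ _)
    have h3 : ∀ᶠ m in U, ∀ v ∈ (univ : Finset {v // v ∈ B}),
        co (μ m) (fun ω => ω.1 v) (fun ω => ω.2) ≤ ε0 := by
      rw [Filter.eventually_all_finset]
      intro v _
      exact hco v (by rw [hSe]; exact Finset.notMem_empty v) ε0 hε0
    obtain ⟨m, m1, m2, m3⟩ := (h3.and (hHG.and hcx)).exists
    obtain ⟨x, w, k1, k2, k3⟩ := hfin (V m) (G m) (H m) (P m) (D m) b (μ m) m2 (hbi m) hcol m3
      (fun u => m1 u (mem_univ _))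
    exact hbl m ⟨x, w, k1, k2, fun j => (k3 j v0).2 hcol0⟩
  · obtain ⟨v, f, hv, hvf, hout⟩ := H54.BC.edge_out hT hB hBc
      (fun v => Nat.one_le_iff_ne_zero.2 (Fintype.card_ne_zero (α := ρ v))) hn2 hSu hSn hcl
    obtain ⟨-, -, htb, -⟩ := Q150.BC.tb α T B hT hB hBc
    obtain ⟨e1, e2, e3, e4⟩ := htb v f hvf
    obtain ⟨n, hn⟩ : ∃ n, B.card = n + 1 := ⟨B.card - 1, by omega⟩
    have hnew : FSs T ρ G H P D col U (hh n) v.1 f.1 := by
      refine newseq (h' := hh B.card) hT hB hBc ?_ hK hb hDpos hAr hHG hvf hcx ?_ ?_ hat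
      · rw [hn, hhdef]
        exact hq_step _ _ _
      · filter_upwards [hdet] with m hm
        intro ω ω' k1 k2 k3
        exact hm ω ω' k1 k2 k3 v hv
      · intro u hu ε hε
        exact hco u (hout u hu) ε hε
    have hle : ∀ j, j < B.card → hh j ≤ hh n := by
      intro j hj
      rw [hhdef]
      exact hq_mono _ _ (by omega)
    have hBB' : BB T ρ G H0 P D col U hh (B \ br T v.1 f.1) := by
      refine ⟨e1, e2, ?_⟩
      intro u hu g hg
      rcases e4 u g hu hg with h5 | ⟨h5, h6⟩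
      · refine fss_mono ?_ (fun m => le_rfl) (hBf u (Finset.mem_sdiff.1 hu).1 g h5)
        rw [hhdef]
        exact hq_mono _ _ e3.le
      · rw [h5, h6]
        exact fss_mono (hle _ e3) hHle hnew
    have h7 := hmin _ (mem_filter.2 ⟨mem_univ _, hBB'⟩)
    omega

end Pool.Agent.H54.BC
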